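import Pool.Agent.Lib.Paf8H.Grp

/-!
# The commuting graphs are connected if and only if the graph is 4-colourable
-/

set_option autoImplicit false

namespace Pool.Agent.Lib.Paf8H

open Pool.Agent.Paf8U

variable {V X ι : Type} {e : Pt V ≃ X}

/-- coercion of conjugates -/
theorem coe_conj {s : ι → Equiv.Perm X} {i : ι} {z : grp s} (h : IsConj (gi s i) z) :
    ∃ g : grp s, (z : Equiv.Perm X) = (g : Equiv.Perm X) * s i * (g : Equiv.Perm X)⁻¹ ∧
      g * gi s i * g⁻¹ = z := by
  obtain ⟨g, hg⟩ := isConj_iff.1 h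
  exact ⟨g, by rw [← hg]; rfl, hg⟩

theorem conj_mem_all (s : ι → Equiv.Perm X) (i : ι) (g : grp s) : g * gi s i * g⁻¹ ∈ clsAll s :=
  ⟨i, isConj_iff.2 ⟨g, rfl⟩⟩

theorem conj_mem_one (s : ι → Equiv.Perm X) (i : ι) (g : grp s) : g * gi s i * g⁻¹ ∈ clsOne s i :=
  isConj_iff.2 ⟨g, rfl⟩

theorem comm_conj {G : Type} [Group G] {a b : G} (h : a * b = b * a) (g : G) :
    (g * a * g⁻¹) * (g * b * g⁻¹) = (g * b * g⁻¹) * (g * a * g⁻¹) := by
  calc (g * a * g⁻¹) * (g * b * g⁻¹) = g * (a * b) * g⁻¹ := by group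
    _ = g * (b * a) * g⁻¹ := by rw [h]
    _ = (g * b * g⁻¹) * (g * a * g⁻¹) := by group

theorem coe_comm {G : Type} [Group G] {H : Subgroup G} {a b : H}
    (h : (a : G) * (b : G) = (b : G) * (a : G)) : a * b = b * a := Subtype.ext h

section A

variable [DecidableEq V] (K : SimpleGraph V) (e) {s : ι → Equiv.Perm X}

/-- the generators in the first family -/
def GenA (s : ι → Equiv.Perm X) (i : ι) : Prop :=
  s i = e.permCongr (pR (ac K) 0) ∨ s i = e.permCongr (pR (ac K) 2) ∨ s i = e.permCongr pO ∨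
    ∃ (v : V) (c : Loc), c ≠ 0 ∧ s i = e.permCongr (shP (Pi.single v c))

/-- the generators in the second family -/
def GenB (s : ι → Equiv.Perm X) (i : ι) : Prop :=
  s i = e.permCongr (pR (ac K) 0) ∨ s i = e.permCongr pT ∨ s i = e.permCongr pO ∨
    ∃ (v : V) (c : Loc), c ≠ 0 ∧ s i = e.permCongr (shP (Pi.single v c))

variable {K e}

theorem grpA (h : ∀ i, GenA e K s i) (x : Equiv.Perm X) (hx : x ∈ grp s) : ∃ t, Gp e 0 t x := by
  induction hx using Subgroup.closure_induction with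
  | mem x hx =>
    obtain ⟨i, rfl⟩ := hx
    rcases h i with h1 | h1 | h1 | ⟨v, c, -, h1⟩
    · exact ⟨0, by rw [h1]; exact gp_pR (mul_zero _)⟩
    · exact ⟨0, by rw [h1]; exact gp_pR (k := 2) (by decide)⟩
    · exact ⟨0, by rw [h1]; exact gp_pO⟩
    · exact ⟨_, by rw [h1]; exact gp_shP _⟩
  | one => exact ⟨0, Gp.one⟩
  | mul x y _ _ hx hy =>
    obtain ⟨t, ht⟩ := hx
    obtain ⟨t', ht'⟩ := hy
    have := ht.mul ht'
    rw [add_zero] at this
    exact ⟨_, this⟩
  | inv x _ hx =>
    obtain ⟨t, ht⟩ := hx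
    exact ⟨t, ht.inv⟩

theorem grpB (h : ∀ i, GenB e K s i) (x : Equiv.Perm X) (hx : x ∈ grp s) :
    ∃ p t, p + p = 0 ∧ Gp e p t x := by
  induction hx using Subgroup.closure_induction with
  | mem x hx =>
    obtain ⟨i, rfl⟩ := hx
    rcases h i with h1 | h1 | h1 | ⟨v, c, -, h1⟩
    · exact ⟨0, 0, add_zero _, by rw [h1]; exact gp_pR (mul_zero _)⟩
    · exact ⟨4, 0, four_four, by rw [h1]; exact gp_pT⟩
    · exact ⟨0, 0, add_zero _, by rw [h1]; exact gp_pO⟩
    · exact ⟨0, _, add_zero _, by rw [h1]; exact gp_shP _⟩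
  | one => exact ⟨0, 0, add_zero _, Gp.one⟩
  | mul x y _ _ hx hy =>
    obtain ⟨p, t, hp, ht⟩ := hx
    obtain ⟨p', t', hp', ht'⟩ := hy
    refine ⟨p + p', _, ?_, ht.mul ht'⟩
    linear_combination hp + hp'
  | inv x _ hx =>
    obtain ⟨p, t, hp, ht⟩ := hx
    exact ⟨p, t, hp, ht.inv⟩

theorem pow_grpA (h : ∀ i, GenA e K s i) (x : grp s) : x ^ 16 = 1 := by
  obtain ⟨t, ht⟩ := grpA h x x.2
  exact Subtype.ext ht.pow16

theorem pow_grpB (h : ∀ i, GenB e K s i) (x : grp s) : x ^ 16 = 1 := by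
  obtain ⟨p, t, -, ht⟩ := grpB h x x.2
  exact Subtype.ext ht.pow16

theorem ord_genA (h : ∀ i, GenA e K s i) (hK : ∀ v, ∃ w, K.Adj v w) (v₀ : V) (i : ι) :
    orderOf (s i) = 2 := by
  obtain ⟨w₀, h₀⟩ := hK v₀
  have hβ : ac K (v₀, w₀) := h₀
  rcases h i with h1 | h1 | h1 | ⟨v, c, hc, h1⟩
  · rw [h1]; exact ord_pR _ hβ
  · rw [h1]; exact ord_pR _ hβ
  · rw [h1]; exact ord_pO v₀
  · obtain ⟨w, hw⟩ := hK v
    rw [h1]
    exact ord_sh hw.ne hc

theorem connA (h : ∀ i, GenA e K s i) (hK : ∀ v, ∃ w, K.Adj v w) (v₀ : V) [Finite V]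
    {iA iB iO : ι} (hA : s iA = e.permCongr (pR (ac K) 0))
    (hB : s iB = e.permCongr (pR (ac K) 2)) (hO : s iO = e.permCongr pO)
    (hS : ∀ v : V, e.permCongr (shP (Pi.single v (1, 0) : V → Loc)) ∈ grp s ∧
      e.permCongr (shP (Pi.single v (0, 1) : V → Loc)) ∈ grp s) :
    (commGraph (clsAll s)).Connected ↔ K.Colorable 4 := by
  obtain ⟨w₀, h₀⟩ := hK v₀
  have hβ₀ : ac K (v₀, w₀) := h₀
  have tyA : Ty (ac K) e 0 0 (s iA) := by
    rw [hA]
    have := ty_pR (act := ac K) (e := e) (0 : Wd)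
    rwa [add_zero] at this
  have tyB : Ty (ac K) e 4 0 (s iB) := by
    rw [hB]
    exact ty_pR (act := ac K) (e := e) (2 : Wd)
  have toO : To e (s iO) := by rw [hO]; exact to_pO
  have memA := conj_mem_all s
  have m1 : ∀ i, gi s i ∈ clsAll s := fun i => ⟨i, IsConj.refl _⟩
  -- the types of the elements
  have cA : ∀ g : grp s, ∃ t, Ty (ac K) e 0 t ((g * gi s iA * g⁻¹ : grp s) : Equiv.Perm X) := by
    intro g
    obtain ⟨t, ht⟩ := grpA h g g.2
    have := tyA.conj (add_zero 0) ht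
    rw [add_zero] at this
    exact ⟨_, this⟩
  have cB : ∀ g : grp s, ∃ t, Ty (ac K) e 4 t ((g * gi s iB * g⁻¹ : grp s) : Equiv.Perm X) := by
    intro g
    obtain ⟨t, ht⟩ := grpA h g g.2
    have := tyB.conj four_four ht
    rw [add_zero] at this
    exact ⟨_, this⟩
  have cO : ∀ g : grp s, To e ((g * gi s iO * g⁻¹ : grp s) : Equiv.Perm X) := by
    intro g
    obtain ⟨t, ht⟩ := grpA h g g.2
    exact toO.conj ht
  have cl : ∀ z ∈ clsAll s, (∃ t, Ty (ac K) e 0 t (z : Equiv.Perm X)) ∨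
      (∃ t, Ty (ac K) e 4 t (z : Equiv.Perm X)) ∨ To e (z : Equiv.Perm X) ∨
      ∃ (p : Wd) (v : V) (c : Loc), c ≠ 0 ∧ Gp e p (Pi.single v c) (z : Equiv.Perm X) := by
    rintro z ⟨i, hi⟩
    obtain ⟨g, hg, -⟩ := coe_conj hi
    obtain ⟨t, ht⟩ := grpA h g g.2
    rw [hg]
    rcases h i with h1 | h1 | h1 | ⟨v, c, hc, h1⟩
    · left
      have := tyA.conj (add_zero 0) ht
      rw [add_zero] at this
      rw [h1, ← hA]
      exact ⟨_, this⟩
    · right; left
      have := tyB.conj four_four ht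
      rw [add_zero] at this
      rw [h1, ← hB]
      exact ⟨_, this⟩
    · right; right; left
      rw [h1, ← hO]
      exact toO.conj ht
    · right; right; right
      rw [h1]
      exact ⟨_, v, c, hc, ht.conj (gp_shP _)⟩
  constructor
  · intro hconn
    by_contra hnc
    have step : ∀ a ∈ clsAll s, ∀ b ∈ clsAll s, a * b = b * a →
        (∃ t, Ty (ac K) e 4 t (a : Equiv.Perm X)) → ∃ t, Ty (ac K) e 4 t (b : Equiv.Perm X) := by
      rintro a - b hb hab ⟨t, ht⟩
      have hab' : (a : Equiv.Perm X) * (b : Equiv.Perm X) = (b : Equiv.Perm X) * a :=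
        congrArg Subtype.val hab
      rcases cl b hb with ⟨t', h1⟩ | h1 | h1 | ⟨p, v, c, hc, h1⟩
      · exfalso
        obtain ⟨β, hβ, hl⟩ := exists_eq_lam K hnc t t'
        exact four_ne (not_comm_ty ht h1 hβ hl hab')
      · exact h1
      · exact absurd hab' (not_comm_to ht h1 hβ₀)
      · exfalso
        obtain ⟨w, hw⟩ := hK v
        refine not_comm_gp ht h1 (β := (v, w)) hw ?_ hab'
        rw [lam_single hw.ne]
        exact hc
    have hr := hconn.preconnected ⟨gi s iO, m1 iO⟩ ⟨gi s iB, m1 iB⟩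
    have hf := const_of_reach (D := clsAll s)
      (fun x : grp s => ∃ t, Ty (ac K) e 4 t (x : Equiv.Perm X))
      (fun a ha b hb hab => propext ⟨step a ha b hb hab, step b hb a ha hab.symm⟩) hr
    dsimp only at hf
    have hB4 : ∃ t, Ty (ac K) e 4 t ((gi s iB : grp s) : Equiv.Perm X) := ⟨0, tyB⟩
    rw [← hf] at hB4
    obtain ⟨t, ht⟩ := hB4
    exact not_comm_to ht toO hβ₀ rfl
  · intro hcol
    obtain ⟨y, hy⟩ := exists_ne_lam K hcol
    let o : clsAll s := ⟨gi s iO, m1 iO⟩
    have hA1 : ∀ z : clsAll s, (∃ t, Ty (ac K) e 0 t ((z : grp s) : Equiv.Perm X)) →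
        (commGraph (clsAll s)).Reachable z o := by
      rintro z ⟨t, ht⟩
      exact reach_of_commute z o (coe_comm (comm_to_ty toO ht).symm)
    have hO1 : ∀ z : clsAll s, To e ((z : grp s) : Equiv.Perm X) →
        (commGraph (clsAll s)).Reachable z o := fun z hz =>
      reach_of_commute z o (coe_comm (comm_to hz toO))
    have main : ∀ z : clsAll s, (commGraph (clsAll s)).Reachable z o := by
      rintro ⟨z, i, hi⟩
      obtain ⟨g, hg, hg'⟩ := coe_conj hi
      subst hg'
      rcases h i with h1 | h1 | h1 | ⟨v, c, hc, h1⟩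
      · apply hA1
        have e1 : gi s i = gi s iA := Subtype.ext (h1.trans hA.symm)
        show ∃ t, Ty (ac K) e 0 t ((g * gi s i * g⁻¹ : grp s) : Equiv.Perm X)
        rw [e1]
        exact cA g
      · -- the reflections `b`
        have e1 : gi s i = gi s iB := Subtype.ext (h1.trans hB.symm)
        have hy' : e.permCongr (shP y) ∈ grp s := sh_mem (grp s) hS y
        let k : grp s := ⟨_, hy'⟩
        let b' : clsAll s := ⟨k * gi s iB * k⁻¹, memA iB k⟩
        have tb' : Ty (ac K) e 4 (0 + y) ((b' : grp s) : Equiv.Perm X) := by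
          have := tyB.conj four_four (gp_shP (e := e) y)
          rw [add_zero] at this
          exact this
        have r1 : (commGraph (clsAll s)).Reachable ⟨g * gi s i * g⁻¹, i, hi⟩ b' := by
          apply reach_of_commute
          apply coe_comm
          obtain ⟨t, ht⟩ := cB g
          rw [← e1] at ht
          exact comm_ty ht tb' fun _ _ _ => rfl
        have r2 : (commGraph (clsAll s)).Reachable b' ⟨gi s iA, m1 iA⟩ := by
          apply reach_of_commute
          apply coe_comm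
          refine comm_ty tb' tyA fun β hβ hl => ?_
          exfalso
          rw [lam_add, lam_zero, zero_add] at hl
          exact hy β hβ hl
        exact (r1.trans r2).trans (hA1 _ ⟨0, tyA⟩)
      · apply hO1
        have e1 : gi s i = gi s iO := Subtype.ext (h1.trans hO.symm)
        show To e ((g * gi s i * g⁻¹ : grp s) : Equiv.Perm X)
        rw [e1]
        exact cO g
      · let o' : clsAll s := ⟨g * gi s iO * g⁻¹, memA iO g⟩
        have r1 : (commGraph (clsAll s)).Reachable ⟨g * gi s i * g⁻¹, i, hi⟩ o' := by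
          apply reach_of_commute
          apply comm_conj
          apply coe_comm
          show s i * s iO = s iO * s i
          rw [h1, hO]
          exact sh_comm_pO _
        exact r1.trans (hO1 o' (cO g))
    rw [SimpleGraph.connected_iff]
    exact ⟨fun a b => (main a).trans (main b).symm, ⟨o⟩⟩

theorem connB (h : ∀ i, GenB e K s i) (hK : ∀ v, ∃ w, K.Adj v w) (v₀ : V) [Finite V]
    {iA iT : ι} (hA : s iA = e.permCongr (pR (ac K) 0)) (hT : s iT = e.permCongr pT)
    (hS : ∀ v : V, e.permCongr (shP (Pi.single v (1, 0) : V → Loc)) ∈ grp s ∧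
      e.permCongr (shP (Pi.single v (0, 1) : V → Loc)) ∈ grp s) :
    (commGraph (clsOne s iA)).Connected ↔ K.Colorable 4 := by
  obtain ⟨w₀, h₀⟩ := hK v₀
  have hβ₀ : ac K (v₀, w₀) := h₀
  have tyA : Ty (ac K) e 0 0 (s iA) := by
    rw [hA]
    have := ty_pR (act := ac K) (e := e) (0 : Wd)
    rwa [add_zero] at this
  have gpT : Gp e 4 0 (s iT) := by rw [hT]; exact gp_pT
  have m1 : gi s iA ∈ clsOne s iA := IsConj.refl _
  have cl : ∀ z ∈ clsOne s iA, (∃ t, Ty (ac K) e 0 t (z : Equiv.Perm X)) ∨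
      (∃ t, Ty (ac K) e 4 t (z : Equiv.Perm X)) := by
    intro z hi
    obtain ⟨g, hg, -⟩ := coe_conj hi
    obtain ⟨p, t, hp, ht⟩ := grpB h g g.2
    have := tyA.conj (add_zero 0) ht
    rw [zero_add] at this
    rw [hg]
    rcases four_cases p hp with rfl | rfl
    · exact Or.inl ⟨_, this⟩
    · exact Or.inr ⟨_, this⟩
  have hb : ∀ k : grp s, ∀ y : V → Loc, (k : Equiv.Perm X) = e.permCongr (shP y) →
      Ty (ac K) e 4 y ((k * gi s iT * gi s iA * (k * gi s iT)⁻¹ : grp s) : Equiv.Perm X) := by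
    intro k y hk
    have h1 : Gp e 4 y ((k * gi s iT : grp s) : Equiv.Perm X) := by
      have h2 := (gp_shP (e := e) y).mul gpT
      rw [zero_add, add_zero, ← hk] at h2
      exact h2
    have := tyA.conj (add_zero 0) h1
    rw [zero_add, zero_add] at this
    exact this
  constructor
  · intro hconn
    by_contra hnc
    have step : ∀ a ∈ clsOne s iA, ∀ b ∈ clsOne s iA, a * b = b * a →
        (∃ t, Ty (ac K) e 4 t (a : Equiv.Perm X)) → ∃ t, Ty (ac K) e 4 t (b : Equiv.Perm X) := by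
      rintro a - b hb hab ⟨t, ht⟩
      have hab' : (a : Equiv.Perm X) * (b : Equiv.Perm X) = (b : Equiv.Perm X) * a :=
        congrArg Subtype.val hab
      rcases cl b hb with ⟨t', h1⟩ | h1
      · exfalso
        obtain ⟨β, hβ, hl⟩ := exists_eq_lam K hnc t t'
        exact four_ne (not_comm_ty ht h1 hβ hl hab')
      · exact h1
    have hT1 : Ty (ac K) e 4 0 ((gi s iT * gi s iA * (gi s iT)⁻¹ : grp s) : Equiv.Perm X) := by
      have := tyA.conj (add_zero 0) gpT
      rw [zero_add, zero_add] at this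
      exact this
    have hr := hconn.preconnected ⟨gi s iA, m1⟩
      ⟨gi s iT * gi s iA * (gi s iT)⁻¹, conj_mem_one s iA _⟩
    have hf := const_of_reach (D := clsOne s iA)
      (fun x : grp s => ∃ t, Ty (ac K) e 4 t (x : Equiv.Perm X))
      (fun a ha b hb hab => propext ⟨step a ha b hb hab, step b hb a ha hab.symm⟩) hr
    dsimp only at hf
    have h4 : ∃ t, Ty (ac K) e 4 t ((gi s iA : grp s) : Equiv.Perm X) := by
      rw [hf]
      exact ⟨0, hT1⟩
    obtain ⟨t, ht⟩ := h4
    have ht' : Ty (ac K) e 4 t (s iA) := ht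
    exact not_comm_to ht' (to_pO (e := e)) hβ₀ (comm_to_ty (to_pO (e := e)) tyA).symm
  · intro hcol
    obtain ⟨y, hy⟩ := exists_ne_lam K hcol
    let a : clsOne s iA := ⟨gi s iA, m1⟩
    have hy' : e.permCongr (shP y) ∈ grp s := sh_mem (grp s) hS y
    let k : grp s := ⟨_, hy'⟩
    let b' : clsOne s iA := ⟨k * gi s iT * gi s iA * (k * gi s iT)⁻¹, conj_mem_one s iA _⟩
    have tb' : Ty (ac K) e 4 y ((b' : grp s) : Equiv.Perm X) := hb k y rfl
    have r2 : (commGraph (clsOne s iA)).Reachable b' a := by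
      apply reach_of_commute
      apply coe_comm
      refine comm_ty tb' tyA fun β hβ hl => ?_
      exfalso
      rw [lam_zero] at hl
      exact hy β hβ hl
    have main : ∀ z : clsOne s iA, (commGraph (clsOne s iA)).Reachable z a := by
      intro z
      rcases cl z z.2 with ⟨t, ht⟩ | ⟨t, ht⟩
      · apply reach_of_commute
        apply coe_comm
        exact comm_ty ht tyA fun _ _ _ => rfl
      · refine SimpleGraph.Reachable.trans ?_ r2
        apply reach_of_commute
        apply coe_comm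
        exact comm_ty ht tb' fun _ _ _ => rfl
    rw [SimpleGraph.connected_iff]
    exact ⟨fun a b => (main a).trans (main b).symm, ⟨a⟩⟩

end A

end Pool.Agent.Lib.Paf8H
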