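import Pool.Agent.Lib.P5135r.Pair
import Pool.Agent.Lib.Paf8H.Conn

set_option autoImplicit false

/-!
# Tuples of permutations as bit strings, and the reduction
-/

namespace Pool.Agent.Lib.Paf8H

open Pool.Agent.Lib.PolyTime Pool.Agent.Lib.Pa7c826 Pool.Agent.Lib.P2ba8ab Pool.Agent.Lib.P5135r

/-- `k + 1` permutations of the set `Fin n` -/
structure PG where
  /-- the number of points -/
  n : ℕ
  /-- the number of permutations, minus one -/
  k : ℕ
  /-- the permutations -/
  s : Fin (k + 1) → Equiv.Perm (Fin n)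

/-- The bit string of a tuple of permutations: the number of points in unary, a `0`, the number of
permutations in unary, a `0`, and the rows of the permutation matrices, one after the other. -/
def PG.encode (p : PG) : List Bool :=
  List.replicate p.n true ++ false :: (List.replicate (p.k + 1) true ++ false ::
    (List.ofFn fun g : Fin (p.k + 1) => (List.ofFn fun i : Fin p.n =>
      List.ofFn fun j : Fin p.n => decide (p.s g i = j)).flatten).flatten)

theorem flatten3 (a b c : ℕ) (F : ℕ → ℕ → ℕ → Bool) :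
    (List.ofFn fun g : Fin a => (List.ofFn fun i : Fin b =>
      List.ofFn fun j : Fin c => F g i j).flatten).flatten =
      (List.range (a * (b * c))).map
        (fun l => F (l / (b * c)) (l % (b * c) / c) (l % (b * c) % c)) := by
  have h : (fun g : Fin a => (List.ofFn fun i : Fin b =>
      List.ofFn fun j : Fin c => F g i j).flatten) =
      fun g : Fin a => List.ofFn fun k : Fin (b * c) => F g (k / c) (k % c) := by
    funext g
    rw [flatten_ofFn b c (F g)]
    apply List.ext_getElem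
    · simp
    · intro i h1 h2
      simp
  rw [h]
  exact flatten_ofFn a (b * c) (fun g k => F g (k / c) (k % c))

/-! ### the cone -/

/-- adjacency in the cone over a graph with an additional pendant vertex -/
noncomputable def coneF (g : Gr) (a b : ℕ) : Bool :=
  !decide (a = b) && ((decide (a = g.n) || decide (b = g.n)) || adjN g a b)

theorem adjN_lt {g : Gr} {a b : ℕ} (h : adjN g a b = true) : a < g.n ∧ b < g.n := by
  by_contra hcon
  unfold adjN at h
  rw [dif_neg hcon] at h
  exact Bool.false_ne_true h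

theorem adjN_symm' {g : Gr} {a b : ℕ} (h : adjN g a b = true) : adjN g b a = true := by
  obtain ⟨h1, h2⟩ := adjN_lt h
  have h3 := (adjN_fin g ⟨a, h1⟩ ⟨b, h2⟩).1 h
  exact (adjN_fin g ⟨b, h2⟩ ⟨a, h1⟩).2 h3.symm

theorem coneF_iff (g : Gr) (a b : ℕ) : coneF g a b = true ↔
    a ≠ b ∧ (a = g.n ∨ b = g.n ∨ adjN g a b = true) := by
  unfold coneF
  simp only [Bool.and_eq_true, Bool.not_eq_true', decide_eq_false_iff_not, Bool.or_eq_true,
    decide_eq_true_eq, or_assoc, ne_eq]

/-- the cone over a graph with an additional pendant vertex -/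
noncomputable def cone (g : Gr) : SimpleGraph (Fin (g.n + 2)) where
  Adj a b := coneF g a b = true
  symm := by
    constructor
    intro a b h
    rw [coneF_iff] at h ⊢
    obtain ⟨h1, h2⟩ := h
    refine ⟨h1.symm, ?_⟩
    rcases h2 with h2 | h2 | h2
    · exact Or.inr (Or.inl h2)
    · exact Or.inl h2
    · exact Or.inr (Or.inr (adjN_symm' h2))
  loopless := by
    constructor
    intro a h
    rw [coneF_iff] at h
    exact h.1 rfl

theorem cone_nb (g : Gr) (v : Fin (g.n + 2)) : ∃ w, (cone g).Adj v w := by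
  by_cases h : v.1 = g.n
  · refine ⟨⟨g.n + 1, by omega⟩, ?_⟩
    show coneF g v.1 (g.n + 1) = true
    rw [coneF_iff]
    exact ⟨by omega, Or.inl h⟩
  · refine ⟨⟨g.n, by omega⟩, ?_⟩
    show coneF g v.1 g.n = true
    rw [coneF_iff]
    exact ⟨h, Or.inr (Or.inl rfl)⟩

theorem cone_col (g : Gr) : (cone g).Colorable 4 ↔ g.G.Colorable 3 := by
  constructor
  · rintro ⟨C⟩
    let ap : Fin (g.n + 2) := ⟨g.n, by omega⟩
    let up : Fin g.n → Fin (g.n + 2) := fun v => ⟨v.1, by omega⟩
    have h1 : ∀ v : Fin g.n, C (up v) ≠ C ap := by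
      intro v
      apply C.valid
      show coneF g v.1 g.n = true
      rw [coneF_iff]
      exact ⟨by omega, Or.inr (Or.inl rfl)⟩
    refine ⟨SimpleGraph.Coloring.mk
      (fun v => (finSuccAboveEquiv (C ap)).symm ⟨C (up v), h1 v⟩) ?_⟩
    intro u v huv heq
    have h2 := (finSuccAboveEquiv (C ap)).symm.injective heq
    have h3 : C (up u) = C (up v) := congrArg Subtype.val h2
    refine C.valid ?_ h3
    show coneF g u.1 v.1 = true
    rw [coneF_iff]
    exact ⟨fun h => huv.ne (Fin.ext h), Or.inr (Or.inr ((adjN_fin g u v).2 huv))⟩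
  · rintro ⟨C⟩
    let c : ℕ → Fin 4 := fun a => if h : a < g.n then (C ⟨a, h⟩).castSucc else
      if a = g.n then 3 else 0
    have hc : ∀ a b : ℕ, a ≠ b → a = g.n → c a ≠ c b := by
      intro a b hab ha
      have h1 : c a = 3 := by
        simp only [c]
        rw [dif_neg (by omega), if_pos ha]
      rw [h1]
      by_cases hb : b < g.n
      · simp only [c]
        rw [dif_pos hb]
        intro h
        have h2 := congrArg Fin.val h
        have h3 := (C ⟨b, hb⟩).2
        rw [Fin.val_castSucc] at h2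
        have h4 : ((3 : Fin 4) : ℕ) = 3 := rfl
        omega
      · simp only [c]
        rw [dif_neg hb, if_neg (by omega)]
        decide
    refine ⟨SimpleGraph.Coloring.mk (fun v => c v.1) ?_⟩
    intro u v huv
    have h1 : coneF g u.1 v.1 = true := huv
    rw [coneF_iff] at h1
    obtain ⟨h1, h2⟩ := h1
    rcases h2 with h2 | h2 | h2
    · exact hc _ _ h1 h2
    · exact (hc _ _ (Ne.symm h1) h2).symm
    · obtain ⟨h3, h4⟩ := adjN_lt h2
      simp only [c]
      rw [dif_pos h3, dif_pos h4]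
      intro h5
      have h6 := Fin.castSucc_injective _ h5
      exact C.valid ((adjN_fin g ⟨u.1, h3⟩ ⟨v.1, h4⟩).1 h2) h6

/-! ### numbering the points -/

/-- a number for a location -/
def cN (c : Loc) : ℕ := c.2.val + 2 * c.1.val

theorem cN_lt : ∀ c : Loc, cN c < 4 := by decide

theorem cN_inj : ∀ c c' : Loc, cN c = cN c' ↔ c = c' := by decide

theorem cN_zero : ∀ c : Loc, cN c = 0 ↔ c = 0 := by decide

theorem cN_fst : ∀ c c' : Loc, c + (1, 0) = c' ↔ cN c ≠ cN c' ∧ cN c % 2 = cN c' % 2 := by decide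

theorem cN_snd : ∀ c c' : Loc, c + (0, 1) = c' ↔ cN c ≠ cN c' ∧ cN c / 2 = cN c' / 2 := by decide

theorem w_inj : ∀ w w' : Wd, w.val = w'.val ↔ w = w' := by decide

theorem w_zero : ∀ w w' : Wd, (w.val + w'.val) % 8 = 0 ↔ 0 - w = w' := by decide

theorem w_two : ∀ w w' : Wd, (w.val + w'.val) % 8 = 2 ↔ 2 - w = w' := by decide

theorem w_rot : ∀ w w' : Wd, w'.val = (w.val + 1) % 8 ↔ w + 1 = w' := by decide

/-- the numbering of the points -/
def eP (m : ℕ) : Pt (Fin m) ≃ Fin (m * m * 32) :=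
  show ((Fin m × Fin m) × ((Fin 2 × Fin 2) × Fin 8)) ≃ Fin (m * m * (2 * 2 * 8)) from
  (Equiv.prodCongr finProdFinEquiv ((Equiv.prodCongr finProdFinEquiv (Equiv.refl _)).trans
    finProdFinEquiv)).trans finProdFinEquiv

theorem eP_val (m : ℕ) (u v : Fin m) (c : Loc) (w : Wd) :
    (eP m ((u, v), (c, w)) : ℕ) = (w.val + 8 * cN c) + 32 * (v + m * u) := by
  obtain ⟨c1, c2⟩ := c
  rfl

/-- the digits -/
def dU (m i : ℕ) : ℕ := i / 32 / m
/-- the digits -/
def dV (m i : ℕ) : ℕ := i / 32 % m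
/-- the digits -/
def dC (i : ℕ) : ℕ := i % 32 / 8
/-- the digits -/
def dW (i : ℕ) : ℕ := i % 32 % 8

theorem low_lt (c : Loc) (w : Wd) : w.val + 8 * cN c < 32 := by
  have h1 := ZMod.val_lt w
  have h2 := cN_lt c
  omega

theorem dU_eP {m : ℕ} (p : Pt (Fin m)) : dU m (eP m p) = p.1.1 := by
  obtain ⟨⟨u, v⟩, c, w⟩ := p
  rw [dU, eP_val, dg_div _ (low_lt c w), dg_div _ v.2]

theorem dV_eP {m : ℕ} (p : Pt (Fin m)) : dV m (eP m p) = p.1.2 := by
  obtain ⟨⟨u, v⟩, c, w⟩ := p
  rw [dV, eP_val, dg_div _ (low_lt c w), dg_mod _ v.2]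

theorem dC_eP {m : ℕ} (p : Pt (Fin m)) : dC (eP m p) = cN p.2.1 := by
  obtain ⟨⟨u, v⟩, c, w⟩ := p
  rw [dC, eP_val, dg_mod _ (low_lt c w), dg_div _ (ZMod.val_lt w)]

theorem dW_eP {m : ℕ} (p : Pt (Fin m)) : dW (eP m p) = p.2.2.val := by
  obtain ⟨⟨u, v⟩, c, w⟩ := p
  rw [dW, eP_val, dg_mod _ (low_lt c w), dg_mod _ (ZMod.val_lt w)]

/-! ### the entries of the permutation matrices -/

/-- reflections over the location `0` -/
def rB (A : Bool) (k c w c' w' : ℕ) : Bool :=
  decide (c = c') && (((A && decide (c = 0)) && decide ((w + w') % 8 = k)) ||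
    (!(A && decide (c = 0)) && decide (w = w')))

/-- reflection everywhere -/
def oB (c w c' w' : ℕ) : Bool := decide (c = c') && decide ((w + w') % 8 = 0)

/-- rotation everywhere -/
def tB (c w c' w' : ℕ) : Bool := decide (c = c') && decide (w' = (w + 1) % 8)

/-- shifts -/
def sB (x y : Bool) (b c w c' w' : ℕ) : Bool :=
  decide (w = w') && ((((x && !y) || (!x && y)) && (!decide (c = c') &&
    ((decide (b = 0) && decide (c % 2 = c' % 2)) || (!decide (b = 0) && decide (c / 2 = c' / 2)))))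
    || (!((x && !y) || (!x && y)) && decide (c = c')))

/-- the entry of the permutation matrix of the generator `γ` -/
noncomputable def entry (g : Gr) (q : Bool) (γ i j : ℕ) : Bool :=
  (decide (dU (g.n + 2) i = dU (g.n + 2) j) && decide (dV (g.n + 2) i = dV (g.n + 2) j)) &&
    ((decide (γ = 0) && rB (coneF g (dU (g.n + 2) i) (dV (g.n + 2) i)) 0 (dC i) (dW i) (dC j)
        (dW j)) ||
    ((decide (γ = 1) && ((q && rB (coneF g (dU (g.n + 2) i) (dV (g.n + 2) i)) 2 (dC i) (dW i)
        (dC j) (dW j)) || (!q && tB (dC i) (dW i) (dC j) (dW j)))) ||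
    ((decide (γ = 2) && oB (dC i) (dW i) (dC j) (dW j)) ||
    (!decide (γ < 3) && sB (decide (dU (g.n + 2) i = (γ - 3) / 2))
      (decide (dV (g.n + 2) i = (γ - 3) / 2)) ((γ - 3) % 2) (dC i) (dW i) (dC j) (dW j)))))

/-- the two coordinates of the locations -/
def cB (b : ℕ) : Loc := if b = 0 then (1, 0) else (0, 1)

theorem cB_ne (b : ℕ) : cB b ≠ 0 := by
  unfold cB
  split_ifs
  · decide
  · decide

/-- the generators -/
noncomputable def gen {m : ℕ} (K : SimpleGraph (Fin m)) (q : Bool) (γ : ℕ) :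
    Equiv.Perm (Pt (Fin m)) :=
  if γ = 0 then pR (ac K) 0 else if γ = 1 then (if q = true then pR (ac K) 2 else pT) else
    if γ = 2 then pO else
      if h : (γ - 3) / 2 < m then shP (Pi.single ⟨(γ - 3) / 2, h⟩ (cB ((γ - 3) % 2))) else 1

open Classical in
theorem pR_val {V : Type} (act : V × V → Prop) (k : Wd) (β : V × V) (c : Loc) (w : Wd) :
    pR act k (β, (c, w)) = (β, (c, if act β ∧ c = 0 then k - w else w)) := by
  show (β, (c, (if act β ∧ c = 0 then Equiv.subLeft k else 1 : Equiv.Perm Wd) w)) = _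
  split_ifs <;> rfl

theorem rB_iff (A : Bool) (P : Prop) (hA : A = true ↔ P) (k : Wd) (k' : ℕ)
    (hk : ∀ w w' : Wd, (w.val + w'.val) % 8 = k' ↔ k - w = w') (c c' : Loc) (w w' : Wd) :
    rB A k' (cN c) w.val (cN c') w'.val = true ↔
      c = c' ∧ ((P ∧ c = 0) ∧ k - w = w' ∨ ¬ (P ∧ c = 0) ∧ w = w') := by
  unfold rB
  simp only [Bool.and_eq_true, Bool.or_eq_true, decide_eq_true_eq, Bool.not_eq_true',
    Bool.and_eq_false_iff, decide_eq_false_iff_not, cN_inj, cN_zero, hk, w_inj, hA]
  have hA' : A = false ↔ ¬ P := by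
    rw [← hA]
    simp
  rw [hA']
  tauto

theorem pR_iff {m : ℕ} (A : Bool) (act : Fin m × Fin m → Prop) (k : Wd) (k' : ℕ)
    (hk : ∀ w w' : Wd, (w.val + w'.val) % 8 = k' ↔ k - w = w') (p p' : Pt (Fin m))
    (hA : A = true ↔ act p.1) (hp : p.1 = p'.1) :
    rB A k' (cN p.2.1) p.2.2.val (cN p'.2.1) p'.2.2.val = true ↔ pR act k p = p' := by
  classical
  obtain ⟨β, c, w⟩ := p
  obtain ⟨β', c', w'⟩ := p'
  have hp' : β = β' := hp
  subst hp'
  rw [rB_iff A (act β) hA k k' hk, pR_val]
  simp only [Prod.mk.injEq, true_and]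
  apply and_congr_right
  intro _
  by_cases h : act β ∧ c = 0
  · rw [if_pos h]
    simp only [h, true_and, not_true_eq_false, false_and, or_false, and_self]
  · rw [if_neg h]
    simp only [h, false_and, not_false_eq_true, true_and, false_or]

theorem oB_iff {m : ℕ} (p p' : Pt (Fin m)) (hp : p.1 = p'.1) :
    oB (cN p.2.1) p.2.2.val (cN p'.2.1) p'.2.2.val = true ↔ pO p = p' := by
  obtain ⟨β, c, w⟩ := p
  obtain ⟨β', c', w'⟩ := p'
  have hp' : β = β' := hp
  subst hp'
  have h1 : pO (β, (c, w)) = (β, (c, 0 - w)) := rfl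
  rw [h1]
  unfold oB
  simp only [Bool.and_eq_true, decide_eq_true_eq, cN_inj, w_zero, Prod.mk.injEq, true_and]

theorem tB_iff {m : ℕ} (p p' : Pt (Fin m)) (hp : p.1 = p'.1) :
    tB (cN p.2.1) p.2.2.val (cN p'.2.1) p'.2.2.val = true ↔ pT p = p' := by
  obtain ⟨β, c, w⟩ := p
  obtain ⟨β', c', w'⟩ := p'
  have hp' : β = β' := hp
  subst hp'
  have h1 : pT (β, (c, w)) = (β, (c, w + 1)) := rfl
  rw [h1]
  unfold tB
  simp only [Bool.and_eq_true, decide_eq_true_eq, cN_inj, w_rot, Prod.mk.injEq, true_and]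

theorem lam_sgl {m : ℕ} (u v x : Fin m) (c : Loc) : lam (u, v) (Pi.single x c : Fin m → Loc) =
    if (u = x ∧ ¬ v = x) ∨ (¬ u = x ∧ v = x) then c else 0 := by
  unfold lam
  by_cases h1 : u = x <;> by_cases h2 : v = x <;> simp [h1, h2, loc_self]

theorem shift_iff (b : ℕ) (c c' : Loc) : c + cB b = c' ↔ cN c ≠ cN c' ∧
    ((b = 0 ∧ cN c % 2 = cN c' % 2) ∨ (¬ b = 0 ∧ cN c / 2 = cN c' / 2)) := by
  unfold cB
  by_cases h : b = 0
  · rw [if_pos h, cN_fst]
    simp only [h, true_and, not_true_eq_false, false_and, or_false]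
  · rw [if_neg h, cN_snd]
    simp only [h, true_and, not_false_eq_true, false_and, false_or]

theorem sB_iff {m : ℕ} (x : Fin m) (b : ℕ) (p p' : Pt (Fin m)) (hp : p.1 = p'.1) :
    sB (decide ((p.1.1 : ℕ) = x)) (decide ((p.1.2 : ℕ) = x)) b (cN p.2.1) p.2.2.val (cN p'.2.1)
      p'.2.2.val = true ↔ shP (Pi.single x (cB b)) p = p' := by
  obtain ⟨⟨u, v⟩, c, w⟩ := p
  obtain ⟨β', c', w'⟩ := p'
  have hp' : (u, v) = β' := hp
  subst hp'
  have h1 : shP (Pi.single x (cB b)) ((u, v), (c, w)) =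
    ((u, v), (c + lam (u, v) (Pi.single x (cB b) : Fin m → Loc), w)) := rfl
  rw [h1, lam_sgl]
  unfold sB
  by_cases h2 : u = x <;> by_cases h3 : v = x <;>
    simp only [h2, h3, Bool.and_eq_true, Bool.or_eq_true, decide_eq_true_eq, Bool.not_eq_true',
      Bool.and_eq_false_iff, Bool.or_eq_false_iff, decide_eq_false_iff_not, Fin.val_inj,
      not_true_eq_false, not_false_eq_true, true_and, and_true, false_and, and_false, or_false,
      false_or, or_true, true_or, if_true, if_false, cN_inj, w_inj, Prod.mk.injEq, add_zero,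
      shift_iff, ne_eq] <;> tauto

theorem entry_iff (g : Gr) (q : Bool) (γ : ℕ) (hγ : γ < 2 * (g.n + 2) + 3)
    (p p' : Pt (Fin (g.n + 2))) :
    entry g q γ (eP _ p) (eP _ p') = true ↔ gen (cone g) q γ p = p' := by
  unfold entry
  rw [dU_eP, dU_eP, dV_eP, dV_eP, dC_eP, dC_eP, dW_eP, dW_eP]
  have hfst : ∀ (K : SimpleGraph (Fin (g.n + 2))) (q : Bool) (γ : ℕ) (p : Pt (Fin (g.n + 2))),
      (gen K q γ p).1 = p.1 := by
    intro K q γ p
    unfold gen
    split_ifs <;> rfl
  by_cases hp : p.1 = p'.1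
  · have e1 : (p.1.1 : ℕ) = p'.1.1 := by rw [hp]
    have e2 : (p.1.2 : ℕ) = p'.1.2 := by rw [hp]
    have hA : coneF g p.1.1 p.1.2 = true ↔ ac (cone g) p.1 := Iff.rfl
    rw [decide_eq_true e1, decide_eq_true e2, Bool.and_self, Bool.true_and]
    unfold gen
    by_cases h0 : γ = 0
    · subst h0
      have h := pR_iff _ (ac (cone g)) 0 0 w_zero p p' hA hp
      simp [h]
    · by_cases h1 : γ = 1
      · subst h1
        cases q with
        | true =>
          have h := pR_iff _ (ac (cone g)) 2 2 w_two p p' hA hp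
          simp [h]
        | false =>
          have h := tB_iff p p' hp
          simp [h]
      · by_cases h2 : γ = 2
        · subst h2
          have h := oB_iff p p' hp
          simp [h]
        · have h3 : ¬ γ < 3 := by omega
          have h4 : (γ - 3) / 2 < g.n + 2 := by omega
          have h := sB_iff (⟨(γ - 3) / 2, h4⟩ : Fin (g.n + 2)) ((γ - 3) % 2) p p' hp
          rw [if_neg h0, if_neg h1, if_neg h2, dif_pos h4, ← h]
          simp only [h0, h1, h2, h3, decide_false, Bool.false_and, Bool.false_or, Bool.not_false,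
            Bool.true_and]
  · constructor
    · intro h
      exfalso
      rw [Bool.and_eq_true, Bool.and_eq_true, decide_eq_true_eq, decide_eq_true_eq] at h
      exact hp (Prod.ext (Fin.ext h.1.1) (Fin.ext h.1.2))
    · intro h
      exact absurd (by rw [← h, hfst]) hp

/-! ### the reduction -/

/-- the reduction -/
noncomputable def red (q : Bool) (g : Gr) : PG where
  n := (g.n + 2) * (g.n + 2) * 32
  k := 2 * (g.n + 2) + 2
  s := fun γ => (eP (g.n + 2)).permCongr (gen (cone g) q γ)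

theorem red_encode (q : Bool) (g : Gr) : (red q g).encode =
    un ((g.n + 2) * (g.n + 2) * 32) ++ false :: (un (2 * (g.n + 2) + 3) ++ false ::
      (List.range ((2 * (g.n + 2) + 3) * (((g.n + 2) * (g.n + 2) * 32) *
        ((g.n + 2) * (g.n + 2) * 32)))).map (fun l => entry g q
          (l / (((g.n + 2) * (g.n + 2) * 32) * ((g.n + 2) * (g.n + 2) * 32)))
          (l % (((g.n + 2) * (g.n + 2) * 32) * ((g.n + 2) * (g.n + 2) * 32)) /
            ((g.n + 2) * (g.n + 2) * 32))
          (l % (((g.n + 2) * (g.n + 2) * 32) * ((g.n + 2) * (g.n + 2) * 32)) %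
            ((g.n + 2) * (g.n + 2) * 32)))) := by
  rw [← flatten3]
  have h : ∀ (γ : Fin (2 * (g.n + 2) + 3)) (i j : Fin ((g.n + 2) * (g.n + 2) * 32)),
      decide ((eP (g.n + 2)).permCongr (gen (cone g) q γ) i = j) = entry g q γ i j := by
    intro γ i j
    obtain ⟨p, rfl⟩ := (eP (g.n + 2)).surjective i
    obtain ⟨p', rfl⟩ := (eP (g.n + 2)).surjective j
    rw [Bool.eq_iff_iff, entry_iff g q γ γ.2, decide_eq_true_eq, pc_apply]
    exact (eP (g.n + 2)).injective.eq_iff
  have h2 : (fun γ : Fin (2 * (g.n + 2) + 3) =>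
      (List.ofFn fun i : Fin ((g.n + 2) * (g.n + 2) * 32) =>
        List.ofFn fun j : Fin ((g.n + 2) * (g.n + 2) * 32) =>
          decide ((eP (g.n + 2)).permCongr (gen (cone g) q γ) i = j)).flatten) =
      fun γ : Fin (2 * (g.n + 2) + 3) =>
      (List.ofFn fun i : Fin ((g.n + 2) * (g.n + 2) * 32) =>
        List.ofFn fun j : Fin ((g.n + 2) * (g.n + 2) * 32) => entry g q γ i j).flatten := by
    funext γ
    congr 1
    congr 1
    funext i
    congr 1
    funext j
    exact h γ i j
  rw [← h2]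
  rfl

end Pool.Agent.Lib.Paf8H
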