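import Mathlib
import Pool.Agent.Lib.Paf8U.Defs

/-!
# Permutations of blocks: reflections and shifts

The points are `e (β, (c, w))`, `β` a pair of vertices, `c ∈ F₂²`, `w ∈ ℤ/8`.
-/

set_option autoImplicit false

namespace Pool.Agent.Lib.Paf8H

/-- the locations -/
abbrev Loc : Type := ZMod 2 × ZMod 2

/-- the fibres -/
abbrev Wd : Type := ZMod 8

/-- the points -/
abbrev Pt (V : Type) : Type := (V × V) × (Loc × Wd)

theorem loc_self (c : Loc) : c + c = 0 := by
  revert c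
  decide

theorem loc_cancel (c l : Loc) : c + l + l = c := by
  rw [add_assoc, loc_self, add_zero]

theorem loc_add_eq (a b c : Loc) : a + b = c ↔ a = c + b := by
  constructor
  · rintro rfl
    rw [loc_cancel]
  · rintro rfl
    rw [loc_cancel]

theorem sgn4 : ∀ ε κ : Wd, (ε = 1 ∨ ε = -1) → ε * (4 * κ) = 4 * κ := by decide

theorem neg4 : ∀ κ : Wd, -(4 * κ) = 4 * κ := by decide

theorem four_sgn : ∀ ε κ : Wd, (ε = 1 ∨ ε = -1) → 4 * (ε * κ + κ) = 0 := by decide

theorem sgn_sq : ∀ ε : Wd, (ε = 1 ∨ ε = -1) → ε * ε = 1 := by decide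

theorem sgn_inv : ∀ ε d : Wd, (ε = 1 ∨ ε = -1) → d + d = 0 → ε * d = d := by decide

theorem sgn_mul : ∀ ε ε' : Wd, (ε = 1 ∨ ε = -1) → (ε' = 1 ∨ ε' = -1) →
    (ε * ε' = 1 ∨ ε * ε' = -1) := by decide

theorem four_ne : (4 : Wd) ≠ 0 := by decide

variable {V X : Type}

/-- the shift of the location in the block `β` -/
def lam (β : V × V) (t : V → Loc) : Loc := t β.1 + t β.2

theorem lam_add (β : V × V) (t s : V → Loc) : lam β (t + s) = lam β t + lam β s := by
  unfold lam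
  simp only [Pi.add_apply]
  abel

theorem lam_zero (β : V × V) : lam β (0 : V → Loc) = 0 := by
  unfold lam
  simp

theorem fun_self (t : V → Loc) : t + t = 0 := by
  funext v
  exact loc_self (t v)

section types

variable (act : V × V → Prop) (e : Pt V ≃ X)

/-- `x` acts on the fibre over `(β, c)` as `w ↦ k - w` -/
def Rf (x : Equiv.Perm X) (β : V × V) (c : Loc) (k : Wd) : Prop :=
  ∀ w, x (e (β, (c, w))) = e (β, (c, k - w))

/-- `x` acts trivially on the fibre over `(β, c)` -/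
def Fx (x : Equiv.Perm X) (β : V × V) (c : Loc) : Prop :=
  ∀ w, x (e (β, (c, w))) = e (β, (c, w))

/-- `x` is a reflection over the location `lam β t` of every active block -/
def Ty (d : Wd) (t : V → Loc) (x : Equiv.Perm X) : Prop :=
  ∀ β c, (act β ∧ c = lam β t → ∃ k, k + k = d ∧ Rf e x β c k) ∧
    (¬ (act β ∧ c = lam β t) → Fx e x β c)

/-- `x` is a reflection on every fibre -/
def To (x : Equiv.Perm X) : Prop := ∀ β c, ∃ k : Wd, k + k = 0 ∧ Rf e x β c k

/-- `x` shifts the locations by `s`, up to dihedral maps of the fibres -/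
def Gp (p : Wd) (s : V → Loc) (x : Equiv.Perm X) : Prop :=
  ∀ β c, ∃ ε κ : Wd, (ε = 1 ∨ ε = -1) ∧ 4 * κ = p ∧
    ∀ w, x (e (β, (c, w))) = e (β, (c + lam β s, ε * w + κ))

end types

variable {act : V × V → Prop} {e : Pt V ≃ X}

theorem Gp.one : Gp e 0 0 (1 : Equiv.Perm X) := by
  intro β c
  refine ⟨1, 0, Or.inl rfl, mul_zero _, fun w => ?_⟩
  rw [lam_zero, add_zero, add_zero, one_mul]
  rfl

theorem Gp.mul {p p' : Wd} {s s' : V → Loc} {x y : Equiv.Perm X} (hx : Gp e p s x)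
    (hy : Gp e p' s' y) : Gp e (p + p') (s + s') (x * y) := by
  intro β c
  obtain ⟨ε', κ', h1', h2', h3'⟩ := hy β c
  obtain ⟨ε, κ, h1, h2, h3⟩ := hx β (c + lam β s')
  refine ⟨ε * ε', ε * κ' + κ, sgn_mul _ _ h1 h1', ?_, fun w => ?_⟩
  · calc 4 * (ε * κ' + κ) = ε * (4 * κ') + 4 * κ := by ring
      _ = p + p' := by rw [sgn4 _ _ h1, h2, h2', add_comm]
  · rw [Equiv.Perm.mul_apply, h3', h3, lam_add]
    congr 3
    · abel
    · ring

theorem Gp.inv_apply {p : Wd} {s : V → Loc} {x : Equiv.Perm X} (hx : Gp e p s x) (β : V × V)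
    (c : Loc) : ∃ ε κ : Wd, (ε = 1 ∨ ε = -1) ∧ 4 * κ = p ∧
      (∀ w, x (e (β, (c + lam β s, w))) = e (β, (c, ε * w + κ))) ∧
      ∀ u, x⁻¹ (e (β, (c, u))) = e (β, (c + lam β s, ε * (u - κ))) := by
  obtain ⟨ε, κ, h1, h2, h3⟩ := hx β (c + lam β s)
  have h4 : ∀ w, x (e (β, (c + lam β s, w))) = e (β, (c, ε * w + κ)) := by
    intro w
    rw [h3, loc_cancel]
  refine ⟨ε, κ, h1, h2, h4, fun u => ?_⟩
  rw [Equiv.Perm.inv_eq_iff_eq, h4]
  have h5 : ε * (ε * (u - κ)) + κ = u := by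
    rw [← mul_assoc, sgn_sq _ h1, one_mul, sub_add_cancel]
  rw [h5]

theorem Gp.inv {p : Wd} {s : V → Loc} {x : Equiv.Perm X} (hx : Gp e p s x) : Gp e p s x⁻¹ := by
  intro β c
  obtain ⟨ε, κ, h1, h2, -, h4⟩ := hx.inv_apply β c
  refine ⟨ε, -(ε * κ), h1, ?_, fun u => ?_⟩
  · calc 4 * -(ε * κ) = -(ε * (4 * κ)) := by ring
      _ = p := by rw [sgn4 _ _ h1, neg4, h2]
  · rw [h4]
    congr 3
    ring

theorem Gp.conj {p p' : Wd} {s s' : V → Loc} {x y : Equiv.Perm X} (hx : Gp e p s x)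
    (hy : Gp e p' s' y) : Gp e (p + p' + p) s' (x * y * x⁻¹) := by
  have h := (hx.mul hy).mul hx.inv
  have h1 : s + s' + s = s' := by
    rw [add_comm s s', add_assoc, fun_self, add_zero]
  rwa [h1] at h

theorem Ty.conj {d p : Wd} {t s : V → Loc} {x y : Equiv.Perm X} (hd : d + d = 0)
    (hx : Gp e p s x) (hy : Ty act e d t y) : Ty act e (d + p) (t + s) (x * y * x⁻¹) := by
  intro β c
  obtain ⟨ε, κ, h1, h2, h3, h4⟩ := hx.inv_apply β c
  have hiff : act β ∧ c = lam β (t + s) ↔ act β ∧ c + lam β s = lam β t := by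
    rw [lam_add, loc_add_eq]
  constructor
  · intro hc
    obtain ⟨k, hk, hR⟩ := (hy β (c + lam β s)).1 (hiff.1 hc)
    refine ⟨ε * k + κ + κ, ?_, fun u => ?_⟩
    · calc ε * k + κ + κ + (ε * k + κ + κ) = ε * (k + k) + 4 * κ := by ring
        _ = d + p := by rw [hk, sgn_inv _ _ h1 hd, h2]
    · rw [Equiv.Perm.mul_apply, Equiv.Perm.mul_apply, h4, hR, h3]
      congr 3
      have h5 := sgn_sq _ h1
      linear_combination (κ - u) * h5
  · intro hc u
    have hF := (hy β (c + lam β s)).2 (fun h => hc (hiff.2 h))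
    rw [Equiv.Perm.mul_apply, Equiv.Perm.mul_apply, h4, hF, h3]
    congr 3
    have h5 := sgn_sq _ h1
    linear_combination (u - κ) * h5

theorem To.conj {s : V → Loc} {x y : Equiv.Perm X} (hx : Gp e 0 s x) (hy : To e y) :
    To e (x * y * x⁻¹) := by
  intro β c
  obtain ⟨ε, κ, h1, h2, h3, h4⟩ := hx.inv_apply β c
  obtain ⟨k, hk, hR⟩ := hy β (c + lam β s)
  refine ⟨ε * k + κ + κ, ?_, fun u => ?_⟩
  · calc ε * k + κ + κ + (ε * k + κ + κ) = ε * (k + k) + 4 * κ := by ring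
      _ = 0 := by rw [hk, mul_zero, h2, add_zero]
  · rw [Equiv.Perm.mul_apply, Equiv.Perm.mul_apply, h4, hR, h3]
    congr 3
    have h5 := sgn_sq _ h1
    linear_combination (κ - u) * h5

/-! ### pairs which do not commute -/

theorem pt_inj {β : V × V} {c : Loc} {w w' : Wd} (h : e (β, (c, w)) = e (β, (c, w'))) : w = w' := by
  have := e.injective h
  simpa using this

theorem not_comm_ty {d d' : Wd} {t t' : V → Loc} {x y : Equiv.Perm X} (hx : Ty act e d t x)
    (hy : Ty act e d' t' y) {β : V × V} (hβ : act β) (hl : lam β t = lam β t')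
    (hc : x * y = y * x) : d = d' := by
  obtain ⟨k, hk, hR⟩ := (hx β (lam β t)).1 ⟨hβ, rfl⟩
  obtain ⟨k', hk', hR'⟩ := (hy β (lam β t)).1 ⟨hβ, hl⟩
  have h1 := congrArg (fun z : Equiv.Perm X => z (e (β, (lam β t, 0)))) hc
  simp only [Equiv.Perm.mul_apply] at h1
  rw [hR', hR, hR, hR'] at h1
  have h2 := pt_inj h1
  rw [← hk, ← hk']
  linear_combination h2

theorem not_comm_to {t : V → Loc} {x y : Equiv.Perm X} (hx : Ty act e 4 t x)
    (hy : To e y) {β : V × V} (hβ : act β) : x * y ≠ y * x := by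
  intro hc
  obtain ⟨k, hk, hR⟩ := (hx β (lam β t)).1 ⟨hβ, rfl⟩
  obtain ⟨k', hk', hR'⟩ := hy β (lam β t)
  have h1 := congrArg (fun z : Equiv.Perm X => z (e (β, (lam β t, 0)))) hc
  simp only [Equiv.Perm.mul_apply] at h1
  rw [hR', hR, hR, hR'] at h1
  have h2 := pt_inj h1
  apply four_ne
  rw [← hk]
  linear_combination h2 + hk'

theorem not_comm_gp {p : Wd} {t s : V → Loc} {x y : Equiv.Perm X} (hx : Ty act e 4 t x)
    (hy : Gp e p s y) {β : V × V} (hβ : act β) (hs : lam β s ≠ 0) : x * y ≠ y * x := by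
  intro hc
  obtain ⟨k, hk, hR⟩ := (hx β (lam β t)).1 ⟨hβ, rfl⟩
  obtain ⟨ε, κ, -, -, h3⟩ := hy β (lam β t)
  have hF := (hx β (lam β t + lam β s)).2 (by
    rintro ⟨-, h⟩
    exact hs (add_eq_left.1 h))
  have h1 := congrArg (fun z : Equiv.Perm X => z (e (β, (lam β t, 0)))) hc
  simp only [Equiv.Perm.mul_apply] at h1
  rw [h3, hF, hR, ← h3] at h1
  have h2 := pt_inj (y.injective h1)
  have h4 : k = 0 := by
    rw [sub_zero] at h2
    exact h2.symm
  rw [h4, add_zero] at hk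
  exact four_ne hk.symm

/-! ### pairs which commute -/

theorem perm_ext {x y : Equiv.Perm X} (h : ∀ β c w, x (e (β, (c, w))) = y (e (β, (c, w)))) :
    x = y := by
  apply Equiv.ext
  intro z
  obtain ⟨⟨β, c, w⟩, rfl⟩ := e.surjective z
  exact h β c w

theorem comm_ty {d d' : Wd} {t t' : V → Loc} {x y : Equiv.Perm X} (hx : Ty act e d t x)
    (hy : Ty act e d' t' y) (h : ∀ β, act β → lam β t = lam β t' → d = d') : x * y = y * x := by
  refine perm_ext (e := e) fun β c w => ?_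
  rw [Equiv.Perm.mul_apply, Equiv.Perm.mul_apply]
  by_cases h1 : act β ∧ c = lam β t
  · obtain ⟨k, hk, hR⟩ := (hx β c).1 h1
    by_cases h2 : act β ∧ c = lam β t'
    · obtain ⟨k', hk', hR'⟩ := (hy β c).1 h2
      rw [hR', hR, hR, hR']
      congr 3
      have := h β h1.1 (h1.2.symm.trans h2.2)
      rw [← hk, ← hk'] at this
      linear_combination this
    · have hF' := (hy β c).2 h2
      rw [hF', hR, hF']
  · have hF := (hx β c).2 h1
    by_cases h2 : act β ∧ c = lam β t'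
    · obtain ⟨k', hk', hR'⟩ := (hy β c).1 h2
      rw [hF, hR', hF]
    · have hF' := (hy β c).2 h2
      rw [hF, hF', hF]

theorem comm_to_ty {t : V → Loc} {x y : Equiv.Perm X} (hx : To e x) (hy : Ty act e 0 t y) :
    x * y = y * x := by
  refine perm_ext (e := e) fun β c w => ?_
  rw [Equiv.Perm.mul_apply, Equiv.Perm.mul_apply]
  obtain ⟨k, hk, hR⟩ := hx β c
  by_cases h2 : act β ∧ c = lam β t
  · obtain ⟨k', hk', hR'⟩ := (hy β c).1 h2
    rw [hR', hR, hR, hR']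
    congr 3
    linear_combination hk - hk'
  · have hF' := (hy β c).2 h2
    rw [hF', hR, hF']

theorem comm_to {x y : Equiv.Perm X} (hx : To e x) (hy : To e y) : x * y = y * x := by
  refine perm_ext (e := e) fun β c w => ?_
  rw [Equiv.Perm.mul_apply, Equiv.Perm.mul_apply]
  obtain ⟨k, hk, hR⟩ := hx β c
  obtain ⟨k', hk', hR'⟩ := hy β c
  rw [hR', hR, hR, hR']
  congr 3
  linear_combination hk - hk'

/-! ### the exponent -/

theorem pow8 {y : Equiv.Perm X} (h : ∀ β c, ∃ ε κ : Wd, (ε = 1 ∨ ε = -1) ∧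
    ∀ w, y (e (β, (c, w))) = e (β, (c, ε * w + κ))) : y ^ 8 = 1 := by
  have h2 : ∀ β c, ∃ κ : Wd, 4 * κ = 0 ∧ ∀ w, (y * y) (e (β, (c, w))) = e (β, (c, w + κ)) := by
    intro β c
    obtain ⟨ε, κ, h1, h3⟩ := h β c
    refine ⟨ε * κ + κ, four_sgn _ _ h1, fun w => ?_⟩
    rw [Equiv.Perm.mul_apply, h3, h3]
    congr 3
    have h5 := sgn_sq _ h1
    linear_combination w * h5
  have h4 : y ^ 8 = (y * y) * ((y * y) * ((y * y) * (y * y))) := by
    simp only [pow_succ, pow_zero, one_mul, mul_assoc]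
  rw [h4]
  refine perm_ext (e := e) fun β c w => ?_
  obtain ⟨κ, h1, h3⟩ := h2 β c
  rw [Equiv.Perm.mul_apply, Equiv.Perm.mul_apply (y * y) ((y * y) * (y * y)),
    Equiv.Perm.mul_apply (y * y) (y * y), h3, h3, h3, h3]
  have h5 : w + κ + κ + κ + κ = w := by linear_combination h1
  rw [h5]
  rfl

theorem Gp.pow16 {p : Wd} {s : V → Loc} {x : Equiv.Perm X} (hx : Gp e p s x) : x ^ 16 = 1 := by
  have h1 : x ^ 16 = (x * x) ^ 8 := by rw [← sq, ← pow_mul]
  rw [h1]
  apply pow8 (e := e)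
  intro β c
  obtain ⟨ε, κ, h2, -, h3⟩ := hx.mul hx β c
  refine ⟨ε, κ, h2, fun w => ?_⟩
  rw [h3, fun_self, lam_zero, add_zero]

end Pool.Agent.Lib.Paf8H
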