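import Pool.Agent.Lib.Paf8H.Core

/-!
# The groups generated by reflections and shifts, and their commuting graphs
-/

set_option autoImplicit false

namespace Pool.Agent.Lib.Paf8H

open Pool.Agent.Paf8U

variable {V X ι : Type}

/-! ### the permutations -/

/-- a permutation of every fibre -/
def fibP (f : V × V → Loc → Equiv.Perm Wd) : Equiv.Perm (Pt V) where
  toFun p := (p.1, (p.2.1, f p.1 p.2.1 p.2.2))
  invFun p := (p.1, (p.2.1, (f p.1 p.2.1).symm p.2.2))
  left_inv p := by simp
  right_inv p := by simp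

/-- a shift of the locations -/
def shP (t : V → Loc) : Equiv.Perm (Pt V) where
  toFun p := (p.1, (p.2.1 + lam p.1 t, p.2.2))
  invFun p := (p.1, (p.2.1 + lam p.1 t, p.2.2))
  left_inv p := by simp [loc_cancel]
  right_inv p := by simp [loc_cancel]

open Classical in
/-- the reflection `w ↦ k - w` over the location `0` of the active blocks -/
noncomputable def pR (act : V × V → Prop) (k : Wd) : Equiv.Perm (Pt V) :=
  fibP fun β c => if act β ∧ c = 0 then Equiv.subLeft k else 1

/-- the reflection `w ↦ - w` of all fibres -/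
def pO : Equiv.Perm (Pt V) := fibP fun _ _ => Equiv.subLeft 0

/-- the rotation `w ↦ w + 1` of all fibres -/
def pT : Equiv.Perm (Pt V) := fibP fun _ _ => Equiv.addRight 1

variable {act : V × V → Prop} {e : Pt V ≃ X}

theorem pc_apply (p : Equiv.Perm (Pt V)) (z : Pt V) : e.permCongr p (e z) = e (p z) := by
  rw [Equiv.permCongr_apply, Equiv.symm_apply_apply]

open Classical in
theorem pR_pos {k : Wd} {β : V × V} {c : Loc} (h : act β ∧ c = 0) :
    Rf e (e.permCongr (pR act k)) β c k := by
  intro w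
  rw [pc_apply]
  show e (β, (c, (if act β ∧ c = 0 then Equiv.subLeft k else 1 : Equiv.Perm Wd) w)) = _
  rw [if_pos h, Equiv.subLeft_apply]

open Classical in
theorem pR_neg {k : Wd} {β : V × V} {c : Loc} (h : ¬ (act β ∧ c = 0)) :
    Fx e (e.permCongr (pR act k)) β c := by
  intro w
  rw [pc_apply]
  show e (β, (c, (if act β ∧ c = 0 then Equiv.subLeft k else 1 : Equiv.Perm Wd) w)) = _
  rw [if_neg h, Equiv.Perm.one_apply]

theorem ty_pR (k : Wd) : Ty act e (k + k) 0 (e.permCongr (pR act k)) := by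
  intro β c
  rw [lam_zero]
  exact ⟨fun h => ⟨k, rfl, pR_pos h⟩, fun h => pR_neg h⟩

theorem rf_pO (β : V × V) (c : Loc) : Rf e (e.permCongr pO) β c 0 := by
  intro w
  rw [pc_apply]
  rfl

theorem to_pO : To e (e.permCongr pO) := fun β c => ⟨0, add_zero 0, rf_pO β c⟩

theorem gp_pR {k : Wd} (hk : 4 * k = 0) : Gp e 0 0 (e.permCongr (pR act k)) := by
  intro β c
  rw [lam_zero, add_zero]
  by_cases h : act β ∧ c = 0
  · refine ⟨-1, k, Or.inr rfl, hk, fun w => ?_⟩
    rw [pR_pos h w]
    congr 3
    ring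
  · refine ⟨1, 0, Or.inl rfl, mul_zero _, fun w => ?_⟩
    rw [pR_neg h w]
    congr 3
    ring

theorem gp_pO : Gp e 0 0 (e.permCongr pO) := by
  intro β c
  rw [lam_zero, add_zero]
  refine ⟨-1, 0, Or.inr rfl, mul_zero _, fun w => ?_⟩
  rw [rf_pO β c w]
  congr 3
  ring

theorem gp_pT : Gp e 4 0 (e.permCongr pT) := by
  intro β c
  rw [lam_zero, add_zero]
  refine ⟨1, 1, Or.inl rfl, mul_one _, fun w => ?_⟩
  rw [pc_apply, one_mul]
  rfl

theorem gp_shP (t : V → Loc) : Gp e 0 t (e.permCongr (shP t)) := by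
  intro β c
  refine ⟨1, 0, Or.inl rfl, mul_zero _, fun w => ?_⟩
  rw [pc_apply, one_mul, add_zero]
  rfl

theorem sh_apply (t : V → Loc) (β : V × V) (c : Loc) (w : Wd) :
    e.permCongr (shP t) (e (β, (c, w))) = e (β, (c + lam β t, w)) := by
  rw [pc_apply]
  rfl

theorem sh_add (t t' : V → Loc) :
    e.permCongr (shP (t + t')) = e.permCongr (shP t) * e.permCongr (shP t') := by
  refine perm_ext (e := e) fun β c w => ?_
  rw [Equiv.Perm.mul_apply, sh_apply, sh_apply, sh_apply, lam_add]
  congr 3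
  abel

theorem sh_zero : e.permCongr (shP (0 : V → Loc)) = 1 := by
  refine perm_ext (e := e) fun β c w => ?_
  rw [sh_apply, lam_zero, add_zero]
  rfl

theorem sh_comm_pO (t : V → Loc) :
    e.permCongr (shP t) * e.permCongr pO = e.permCongr pO * e.permCongr (shP t) := by
  refine perm_ext (e := e) fun β c w => ?_
  rw [Equiv.Perm.mul_apply, Equiv.Perm.mul_apply, sh_apply, rf_pO, rf_pO, sh_apply]

/-! ### involutions -/

theorem ord_two {x : Equiv.Perm X} (h : x * x = 1) (h1 : x ≠ 1) : orderOf x = 2 := by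
  apply orderOf_eq_prime
  · rw [sq, h]
  · exact h1

theorem ord_pR (k : Wd) {β : V × V} (hβ : act β) : orderOf (e.permCongr (pR act k)) = 2 := by
  apply ord_two
  · refine perm_ext (e := e) fun β c w => ?_
    rw [Equiv.Perm.mul_apply]
    by_cases h : act β ∧ c = 0
    · rw [pR_pos h, pR_pos h, sub_sub_cancel]
      rfl
    · rw [pR_neg h, pR_neg h]
      rfl
  · intro h1
    have h2 : ∀ w : Wd, w = k - w := by
      intro w
      have h3 := congrArg (fun z : Equiv.Perm X => z (e (β, (0, w)))) h1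
      rw [pR_pos ⟨hβ, rfl⟩] at h3
      exact (pt_inj h3).symm
    have h3 := h2 0
    have h4 := h2 1
    rw [← sub_zero k, ← h3] at h4
    revert h4
    decide

theorem ord_pO (v : V) : orderOf (e.permCongr pO) = 2 := by
  apply ord_two
  · refine perm_ext (e := e) fun β c w => ?_
    rw [Equiv.Perm.mul_apply, rf_pO, rf_pO, sub_sub_cancel]
    rfl
  · intro h1
    have h3 := congrArg (fun z : Equiv.Perm X => z (e ((v, v), (0, 1)))) h1
    rw [rf_pO] at h3
    have h4 := pt_inj h3
    revert h4
    decide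

theorem lam_single [DecidableEq V] {v w : V} (h : v ≠ w) (c : Loc) :
    lam (v, w) (Pi.single v c : V → Loc) = c := by
  unfold lam
  simp [Pi.single_eq_of_ne (Ne.symm h)]

theorem ord_sh [DecidableEq V] {v w : V} (h : v ≠ w) {c : Loc} (hc : c ≠ 0) :
    orderOf (e.permCongr (shP (Pi.single v c : V → Loc))) = 2 := by
  apply ord_two
  · rw [← sh_add, fun_self, sh_zero]
  · intro h1
    have h3 := congrArg (fun z : Equiv.Perm X => z (e ((v, w), (0, 0)))) h1
    rw [sh_apply, lam_single h, zero_add] at h3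
    have h4 := e.injective h3
    simp only [Prod.mk.injEq, and_true, true_and] at h4
    exact hc h4

/-! ### generated groups -/

/-- the group generated by the permutations `s i` -/
def grp (s : ι → Equiv.Perm X) : Subgroup (Equiv.Perm X) := Subgroup.closure (Set.range s)

/-- the generators -/
def gi (s : ι → Equiv.Perm X) (i : ι) : grp s := ⟨s i, Subgroup.subset_closure ⟨i, rfl⟩⟩

/-- the conjugates of the generators -/
def clsAll (s : ι → Equiv.Perm X) : Set (grp s) := {x | ∃ i, IsConj (gi s i) x}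

/-- the conjugates of the generator `s i` -/
def clsOne (s : ι → Equiv.Perm X) (i : ι) : Set (grp s) := {x | IsConj (gi s i) x}

theorem order_conj {G : Type} [Group G] {a b : G} (h : IsConj a b) : orderOf b = orderOf a := by
  obtain ⟨c, rfl⟩ := isConj_iff.1 h
  have := orderOf_injective (MulAut.conj c).toMonoidHom (MulAut.conj c).injective a
  exact this

theorem order_gi (s : ι → Equiv.Perm X) (i : ι) : orderOf (gi s i) = orderOf (s i) :=
  (Subgroup.orderOf_coe (gi s i)).symm

theorem normal_all {s : ι → Equiv.Perm X} (i : ι) (h : ∀ i, orderOf (s i) = 2) :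
    IsNormalInvolutionSet (clsAll s) := by
  refine ⟨⟨gi s i, i, IsConj.refl _⟩, ?_, ?_⟩
  · rintro d ⟨j, hj⟩
    rw [order_conj hj, order_gi, h]
  · rintro d ⟨j, hj⟩ g
    refine ⟨j, hj.trans ?_⟩
    exact isConj_iff.2 ⟨g⁻¹, by rw [inv_inv]⟩

theorem normal_one {s : ι → Equiv.Perm X} (i : ι) (h : orderOf (s i) = 2) :
    IsNormalInvolutionSet (clsOne s i) := by
  refine ⟨⟨gi s i, IsConj.refl _⟩, ?_, ?_⟩
  · intro d hj
    have hj' : IsConj (gi s i) d := hj
    rw [order_conj hj', order_gi, h]
  · intro d hj g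
    have hj' : IsConj (gi s i) d := hj
    exact hj'.trans (isConj_iff.2 ⟨g⁻¹, by rw [inv_inv]⟩)

theorem closure_all (s : ι → Equiv.Perm X) : Subgroup.closure (clsAll s) = ⊤ := by
  have h1 : (⊤ : Subgroup (grp s)) = Subgroup.closure
      ((fun x : grp s => (x : Equiv.Perm X)) ⁻¹' Set.range s) :=
    (Subgroup.closure_closure_coe_preimage (k := Set.range s)).symm
  rw [eq_top_iff, h1]
  apply Subgroup.closure_mono
  rintro ⟨x, hx⟩ ⟨i, hi⟩
  refine ⟨i, ?_⟩
  have : gi s i = ⟨x, hx⟩ := Subtype.ext hi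
  rw [this]

theorem sh_mem [DecidableEq V] [Finite V] (G : Subgroup (Equiv.Perm X))
    (h : ∀ v : V, e.permCongr (shP (Pi.single v (1, 0) : V → Loc)) ∈ G ∧
      e.permCongr (shP (Pi.single v (0, 1) : V → Loc)) ∈ G) (t : V → Loc) :
    e.permCongr (shP t) ∈ G := by
  have := Fintype.ofFinite V
  have hs : ∀ (v : V) (c : Loc), e.permCongr (shP (Pi.single v c : V → Loc)) ∈ G := by
    intro v c
    have h4 : ∀ c : Loc, c = 0 ∨ c = (1, 0) ∨ c = (0, 1) ∨ c = (1, 0) + (0, 1) := by decide
    rcases h4 c with rfl | rfl | rfl | rfl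
    · rw [Pi.single_zero, sh_zero]
      exact G.one_mem
    · exact (h v).1
    · exact (h v).2
    · rw [Pi.single_add, sh_add]
      exact G.mul_mem (h v).1 (h v).2
  rw [← Finset.univ_sum_single t]
  refine Finset.sum_induction _ (fun t : V → Loc => e.permCongr (shP t) ∈ G) ?_ ?_ ?_
  · intro a b ha hb
    rw [sh_add]
    exact G.mul_mem ha hb
  · rw [sh_zero]
    exact G.one_mem
  · intro v _
    exact hs v (t v)

theorem four_cases : ∀ p : Wd, p + p = 0 → p = 0 ∨ p = 4 := by decide

theorem four_four : (4 : Wd) + 4 = 0 := by decide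

/-! ### colourings -/

section col

variable (K : SimpleGraph V)

/-- the active blocks -/
def ac (β : V × V) : Prop := K.Adj β.1 β.2

theorem exists_eq_lam (hK : ¬ K.Colorable 4) (t t' : V → Loc) :
    ∃ β, ac K β ∧ lam β t = lam β t' := by
  by_contra hcon
  push Not at hcon
  apply hK
  have hc : Fintype.card Loc = 4 := by decide
  rw [← hc]
  refine (SimpleGraph.Coloring.mk (fun v => t v + t' v) ?_ : K.Coloring Loc).colorable
  intro u v huv heq
  apply hcon (u, v) huv
  unfold lam
  have h1 := loc_self (t v)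
  have h2 := loc_self (t' u)
  calc t u + t v = (t u + t' u) + (t' u + t v) + (t' u + t' u) := by
        rw [h2, add_zero]
        calc t u + t v = t u + t v + (t' u + t' u) := by rw [h2, add_zero]
          _ = (t u + t' u) + (t' u + t v) := by abel
    _ = (t v + t' v) + (t' u + t v) + (t' u + t' u) := by rw [heq]
    _ = (t v + t v) + (t' u + t' v) + (t' u + t' u) := by abel
    _ = t' u + t' v := by rw [h1, h2, zero_add, add_zero]

theorem exists_ne_lam (hK : K.Colorable 4) : ∃ y : V → Loc, ∀ β, ac K β → lam β y ≠ 0 := by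
  obtain ⟨C⟩ := hK
  have hc : Fintype.card (Fin 4) = Fintype.card Loc := by decide
  obtain ⟨f⟩ := Fintype.card_eq.1 hc
  refine ⟨fun v => f (C v), fun β hβ h0 => ?_⟩
  apply C.valid hβ
  apply f.injective
  have h1 : f (C β.1) + f (C β.2) = 0 := h0
  have h2 := (loc_add_eq (f (C β.1)) (f (C β.2)) 0).1 h1
  rwa [zero_add] at h2

end col

end Pool.Agent.Lib.Paf8H
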