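import Pool.Agent.Lib.Paf8H.Code

set_option autoImplicit false

/-!
# The reduction is computable in polynomial time
-/

namespace Pool.Agent.Lib.Paf8H

open Pool.Agent.Lib.PolyTime Pool.Agent.Lib.Pa7c826 Pool.Agent.Lib.P2ba8ab Pool.Agent.Lib.P5135r
open Pool.Agent.Paf8U

section

variable {α : Type} {D : α → Prop} {ctx : List (α → List Bool)}

theorem poly_cone {g : α → Gr} (hg : Rd D ctx g) {u v : α → ℕ} (hu : PolyN D ctx u)
    (hv : PolyN D ctx v) : PolyB D ctx (fun a => coneF (g a) (u a) (v a)) :=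
  (PolyB.natEq hu hv).not.and (((PolyB.natEq hu hg.n).or (PolyB.natEq hv hg.n)).or (hg.adj hu hv))

variable {c w c' w' : α → ℕ}

theorem poly_rB {A : α → Bool} (hA : PolyB D ctx A) (k : ℕ) (hc : PolyN D ctx c)
    (hw : PolyN D ctx w) (hc' : PolyN D ctx c') (hw' : PolyN D ctx w') :
    PolyB D ctx (fun a => rB (A a) k (c a) (w a) (c' a) (w' a)) :=
  (PolyB.natEq hc hc').and (((hA.and (PolyB.natEq hc (PolyN.const 0))).and
    (PolyB.natEq (nMod' (hw.add hw') (PolyN.const 8)) (PolyN.const k))).or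
    ((hA.and (PolyB.natEq hc (PolyN.const 0))).not.and (PolyB.natEq hw hw')))

theorem poly_oB (hc : PolyN D ctx c) (hw : PolyN D ctx w) (hc' : PolyN D ctx c')
    (hw' : PolyN D ctx w') : PolyB D ctx (fun a => oB (c a) (w a) (c' a) (w' a)) :=
  (PolyB.natEq hc hc').and (PolyB.natEq (nMod' (hw.add hw') (PolyN.const 8)) (PolyN.const 0))

theorem poly_tB (hc : PolyN D ctx c) (hw : PolyN D ctx w) (hc' : PolyN D ctx c')
    (hw' : PolyN D ctx w') : PolyB D ctx (fun a => tB (c a) (w a) (c' a) (w' a)) :=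
  (PolyB.natEq hc hc').and (PolyB.natEq hw' (nMod' hw.succ (PolyN.const 8)))

theorem poly_sB {x y : α → Bool} (hx : PolyB D ctx x) (hy : PolyB D ctx y) {b : α → ℕ}
    (hb : PolyN D ctx b) (hc : PolyN D ctx c) (hw : PolyN D ctx w) (hc' : PolyN D ctx c')
    (hw' : PolyN D ctx w') :
    PolyB D ctx (fun a => sB (x a) (y a) (b a) (c a) (w a) (c' a) (w' a)) :=
  (PolyB.natEq hw hw').and
    ((((hx.and hy.not).or (hx.not.and hy)).and ((PolyB.natEq hc hc').not.and
      (((PolyB.natEq hb (PolyN.const 0)).and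
        (PolyB.natEq (nMod' hc (PolyN.const 2)) (nMod' hc' (PolyN.const 2)))).or
      ((PolyB.natEq hb (PolyN.const 0)).not.and
        (PolyB.natEq (nDiv' hc (PolyN.const 2)) (nDiv' hc' (PolyN.const 2))))))).or
    (((hx.and hy.not).or (hx.not.and hy)).not.and (PolyB.natEq hc hc')))

theorem poly_entry {g : α → Gr} (hg : Rd D ctx g) (q : Bool) {γ i j : α → ℕ}
    (hγ : PolyN D ctx γ) (hi : PolyN D ctx i) (hj : PolyN D ctx j) :
    PolyB D ctx (fun a => entry (g a) q (γ a) (i a) (j a)) := by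
  have hm : PolyN D ctx (fun a => (g a).n + 2) := hg.n.succ.succ
  have c32 := PolyN.const (D := D) (ctx := ctx) 32
  have c8 := PolyN.const (D := D) (ctx := ctx) 8
  have c3 := PolyN.const (D := D) (ctx := ctx) 3
  have c2 := PolyN.const (D := D) (ctx := ctx) 2
  have u1 : PolyN D ctx (fun a => dU ((g a).n + 2) (i a)) := nDiv' (nDiv' hi c32) hm
  have v1 : PolyN D ctx (fun a => dV ((g a).n + 2) (i a)) := nMod' (nDiv' hi c32) hm
  have u2 : PolyN D ctx (fun a => dU ((g a).n + 2) (j a)) := nDiv' (nDiv' hj c32) hm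
  have v2 : PolyN D ctx (fun a => dV ((g a).n + 2) (j a)) := nMod' (nDiv' hj c32) hm
  have d1 : PolyN D ctx (fun a => dC (i a)) := nDiv' (nMod' hi c32) c8
  have w1 : PolyN D ctx (fun a => dW (i a)) := nMod' (nMod' hi c32) c8
  have d2 : PolyN D ctx (fun a => dC (j a)) := nDiv' (nMod' hj c32) c8
  have w2 : PolyN D ctx (fun a => dW (j a)) := nMod' (nMod' hj c32) c8
  have hA := poly_cone hg u1 v1
  have x3 := PolyN.sub hγ c3
  have x1 := nDiv' x3 c2
  have x2 := nMod' x3 c2
  exact ((PolyB.natEq u1 u2).and (PolyB.natEq v1 v2)).and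
    (((PolyB.natEq hγ (PolyN.const 0)).and (poly_rB hA 0 d1 w1 d2 w2)).or
    (((PolyB.natEq hγ (PolyN.const 1)).and
      (((PolyB.const q).and (poly_rB hA 2 d1 w1 d2 w2)).or
        ((PolyB.const (!q)).and (poly_tB d1 w1 d2 w2)))).or
    (((PolyB.natEq hγ (PolyN.const 2)).and (poly_oB d1 w1 d2 w2)).or
    ((PolyB.lt hγ c3).not.and (poly_sB (PolyB.natEq u1 x1) (PolyB.natEq v1 x1) x2 d1 w1 d2 w2)))))

end

theorem poly_red (q : Bool) :
    PolyC (fun _ : Gr => True) [Gr.encode] (fun g => (red q g).encode) := by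
  have hn : PolyN (fun _ : Gr => True) [Gr.encode] (fun g => g.n) := poly_n
  have hm : PolyN (fun _ : Gr => True) [Gr.encode] (fun g => g.n + 2) := hn.succ.succ
  have hN : PolyN (fun _ : Gr => True) [Gr.encode] (fun g => (g.n + 2) * (g.n + 2) * 32) :=
    (hm.mul hm).mul (PolyN.const 32)
  have hk : PolyN (fun _ : Gr => True) [Gr.encode] (fun g => 2 * (g.n + 2) + 3) :=
    ((PolyN.const 2).mul hm).add (PolyN.const 3)
  have hL := hk.mul (hN.mul hN)
  have hNu := upN (n := fun g : Gr => (2 * (g.n + 2) + 3) * (((g.n + 2) * (g.n + 2) * 32) *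
    ((g.n + 2) * (g.n + 2) * 32))) hN
  have hl := last (D := fun _ : Gr => True) (ctx := [Gr.encode])
    (n := fun g : Gr => (2 * (g.n + 2) + 3) * (((g.n + 2) * (g.n + 2) * 32) *
      ((g.n + 2) * (g.n + 2) * 32)))
  have hg := Rd.up (n := fun g : Gr => (2 * (g.n + 2) + 3) * (((g.n + 2) * (g.n + 2) * 32) *
    ((g.n + 2) * (g.n + 2) * 32))) (rd_gr (D := fun _ : Gr => True))
  have hNN := hNu.mul hNu
  have h1 := poly_entry hg q (nDiv' hl hNN) (nDiv' (nMod' hl hNN) hNu) (nMod' (nMod' hl hNN) hNu)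
  have h2 := PolyC.map_range hL h1
  refine (PolyC.append hN (PolyC.cons false (PolyC.append hk (PolyC.cons false h2)))).congr
    (fun g _ => ?_)
  rw [red_encode]

/-! ### the result -/

theorem gen_A (g : Gr) (γ : Fin (2 * (g.n + 2) + 3)) :
    GenA (eP (g.n + 2)) (cone g) (red true g).s γ := by
  have hs : (red true g).s γ = (eP (g.n + 2)).permCongr (gen (cone g) true γ) := rfl
  unfold GenA
  rw [hs]
  unfold gen
  by_cases h0 : γ.1 = 0
  · rw [if_pos h0]
    exact Or.inl rfl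
  · by_cases h1 : γ.1 = 1
    · rw [if_neg h0, if_pos h1, if_pos rfl]
      exact Or.inr (Or.inl rfl)
    · by_cases h2 : γ.1 = 2
      · rw [if_neg h0, if_neg h1, if_pos h2]
        exact Or.inr (Or.inr (Or.inl rfl))
      · have h4 : (γ.1 - 3) / 2 < g.n + 2 := by
          have := γ.2
          omega
        rw [if_neg h0, if_neg h1, if_neg h2, dif_pos h4]
        exact Or.inr (Or.inr (Or.inr ⟨_, _, cB_ne _, rfl⟩))

theorem gen_B (g : Gr) (γ : Fin (2 * (g.n + 2) + 3)) :
    GenB (eP (g.n + 2)) (cone g) (red false g).s γ := by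
  have hs : (red false g).s γ = (eP (g.n + 2)).permCongr (gen (cone g) false γ) := rfl
  unfold GenB
  rw [hs]
  unfold gen
  by_cases h0 : γ.1 = 0
  · rw [if_pos h0]
    exact Or.inl rfl
  · by_cases h1 : γ.1 = 1
    · rw [if_neg h0, if_pos h1, if_neg Bool.false_ne_true]
      exact Or.inr (Or.inl rfl)
    · by_cases h2 : γ.1 = 2
      · rw [if_neg h0, if_neg h1, if_pos h2]
        exact Or.inr (Or.inr (Or.inl rfl))
      · have h4 : (γ.1 - 3) / 2 < g.n + 2 := by
          have := γ.2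
          omega
        rw [if_neg h0, if_neg h1, if_neg h2, dif_pos h4]
        exact Or.inr (Or.inr (Or.inr ⟨_, _, cB_ne _, rfl⟩))

theorem shift_mem (q : Bool) (g : Gr) (v : Fin (g.n + 2)) :
    (eP (g.n + 2)).permCongr (shP (Pi.single v (1, 0) : Fin (g.n + 2) → Loc)) ∈
      grp (red q g).s ∧
    (eP (g.n + 2)).permCongr (shP (Pi.single v (0, 1) : Fin (g.n + 2) → Loc)) ∈
      grp (red q g).s := by
  have key : ∀ b : ℕ, b < 2 →
      (eP (g.n + 2)).permCongr (shP (Pi.single v (cB b) : Fin (g.n + 2) → Loc)) ∈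
        grp (red q g).s := by
    intro b hb
    have hv := v.2
    have hlt : 3 + (2 * v.1 + b) < 2 * (g.n + 2) + 3 := by omega
    have h1 : (red q g).s ⟨3 + (2 * v.1 + b), hlt⟩ =
        (eP (g.n + 2)).permCongr (gen (cone g) q (3 + (2 * v.1 + b))) := rfl
    have h2 : gen (cone g) q (3 + (2 * v.1 + b)) =
        shP (Pi.single v (cB b) : Fin (g.n + 2) → Loc) := by
      unfold gen
      have e1 : (3 + (2 * v.1 + b) - 3) / 2 = v.1 := by omega
      have e2 : (3 + (2 * v.1 + b) - 3) % 2 = b := by omega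
      rw [if_neg (by omega), if_neg (by omega), if_neg (by omega)]
      simp only [e1, e2]
      rw [dif_pos hv]
    rw [← h2, ← h1]
    exact Subgroup.subset_closure ⟨_, rfl⟩
  exact ⟨key 0 (by omega), key 1 (by omega)⟩

theorem tm_red (q : Bool) :
    Nonempty (Turing.TM2ComputableInPolyTime Gr.encode PG.encode (red q)) := by
  obtain ⟨⟨tm, time, hout⟩⟩ := PolyC.toTM2 Gr.encode (D := fun _ => True) (red q) PG.encode
    (poly_red q)
  exact ⟨⟨tm, time, fun g => hout ⟨g, trivial⟩⟩⟩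

theorem idx_lt (g : Gr) (a : ℕ) (ha : a < 3) : a < 2 * (g.n + 2) + 3 := by omega

/-- The reduction for the union of the classes of the generators. -/
theorem hardness : ∃ f : Gr → PG,
    Nonempty (Turing.TM2ComputableInPolyTime Gr.encode PG.encode f) ∧
      ∀ g : Gr, (∀ x : grp (f g).s, x ^ 16 = 1) ∧ IsNormalInvolutionSet (clsAll (f g).s) ∧
        Subgroup.closure (clsAll (f g).s) = ⊤ ∧
        ((commGraph (clsAll (f g).s)).Connected ↔ g.G.Colorable 3) := by
  refine ⟨red true, tm_red true, fun g => ?_⟩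
  have hA := gen_A g
  have hord := ord_genA hA (cone_nb g) (⟨0, by omega⟩ : Fin (g.n + 2))
  refine ⟨pow_grpA hA, normal_all (ι := Fin (2 * (g.n + 2) + 3)) ⟨0, by omega⟩ hord,
    closure_all _, ?_⟩
  rw [← cone_col]
  exact connA hA (cone_nb g) (⟨0, by omega⟩ : Fin (g.n + 2)) (iA := ⟨0, idx_lt g 0 (by omega)⟩)
    (iB := ⟨1, idx_lt g 1 (by omega)⟩) (iO := ⟨2, idx_lt g 2 (by omega)⟩) rfl rfl rfl
    (shift_mem true g)

/-- The reduction for the class of the first generator. -/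
theorem hardness_class : ∃ f : Gr → PG,
    Nonempty (Turing.TM2ComputableInPolyTime Gr.encode PG.encode f) ∧
      ∀ g : Gr, (∀ x : grp (f g).s, x ^ 16 = 1) ∧ IsNormalInvolutionSet (clsOne (f g).s 0) ∧
        ((commGraph (clsOne (f g).s 0)).Connected ↔ g.G.Colorable 3) := by
  refine ⟨red false, tm_red false, fun g => ?_⟩
  have hB := gen_B g
  have hord : orderOf ((red false g).s 0) = 2 := by
    obtain ⟨w, hw⟩ := cone_nb g (⟨0, by omega⟩ : Fin (g.n + 2))
    have hβ : ac (cone g) (⟨0, by omega⟩, w) := hw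
    exact ord_pR (e := eP (g.n + 2)) 0 hβ
  refine ⟨pow_grpB hB, normal_one _ hord, ?_⟩
  rw [← cone_col]
  exact connB hB (cone_nb g) (⟨0, by omega⟩ : Fin (g.n + 2)) (iA := 0)
    (iT := ⟨1, idx_lt g 1 (by omega)⟩) rfl rfl (shift_mem false g)

end Pool.Agent.Lib.Paf8H
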